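import Pool.Agent.H24.Tc3

set_option autoImplicit false

open Pool.Agent.H24.Tc Filter Asymptotics

/-- `g_k(m) = O(m² / log m)` for every `k`, and `g_k(m) = Θ(m² / log m)` for every `k ≥ 2`. -/
theorem Pool.Agent.Results.MP_91c91a_lc.Growth.result (k : ℕ) :
    ((fun m : ℕ => (g k m : ℝ)) =O[atTop] fun m => (m : ℝ) ^ 2 / Real.log m) ∧
    (2 ≤ k → (fun m : ℕ => (g k m : ℝ)) =Θ[atTop] fun m => (m : ℝ) ^ 2 / Real.log m) :=
  ⟨big k, fun h => by
    obtain ⟨k, rfl⟩ := Nat.exists_eq_add_of_le' h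
    exact ⟨big _, small k⟩⟩
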